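import Pool.Agent.R745.CB.Final
import Pool.Agent.R745.CB.Bern
import Pool.Agent.R515.CB.C
import Pool.Agent.R515.CB.D
import Pool.Agent.R62.CB.Push
import Pool.Agent.R62.CB.Compl

/-!
Problem MP_8f6e3d_gt: for which `n` is there a bijection `f` of `R^n` such that `f` maps connected
sets to connected sets and its inverse does not?  Answer: exactly for `n` at least `2`.
-/

namespace Pool.Agent.Results.MP_8f6e3d_gt.ConnectedBijections

open Pool.Agent.R745.CB

/-- For every `n ≥ 1` there is a bijection `f` from `R^n` to itself which maps every connected set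
onto a connected set while its inverse does not have this property, if and only if `n ≥ 2`. -/
theorem result : ∀ n : ℕ, 1 ≤ n →
    ((∃ f : EuclideanSpace ℝ (Fin n) ≃ EuclideanSpace ℝ (Fin n),
      ConnectedMap f ∧ ¬ ConnectedMap f.symm) ↔ 2 ≤ n) :=
  fun n hn => final (Pool.Agent.R515.CB.D.canal (Pool.Agent.R515.CB.C.stage
    Pool.Agent.R62.CB.stmPush Pool.Agent.R62.CB.stmCompl)) Bern.bern n hn

end Pool.Agent.Results.MP_8f6e3d_gt.ConnectedBijections
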